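import Mathlib
import Pool.Agent.P.MP_47eac2_co.Stair

/-! Q1 of MP_47eac2_co: the fewest edges of an `n`-vertex graph whose c-rank sum with its
complement is the maximum `M(n)`. -/

namespace Pool.Agent.Results.MP_47eac2_co.MinEdgesMaxSum

open Pool.Agent.P.MP_47eac2_co

/-- `St(W)`, the intersection of the stars (neighbourhoods) of the vertices of `W`;
it is the whole vertex set when `W` is empty. -/
def St {V : Type} (G : SimpleGraph V) (W : Set V) : Set V := ⋂ w ∈ W, G.neighborSet w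

/-- A flat of `G` is a set of the form `St(W)`. -/
def IsFlat {V : Type} (G : SimpleGraph V) (F : Set V) : Prop := ∃ W : Set V, F = St G W

/-- The c-rank: the height of the lattice of flats, i.e. the largest `k` such that there is a
chain `p 0 ⊂ p 1 ⊂ ... ⊂ p k` of flats. -/
noncomputable def crk {V : Type} (G : SimpleGraph V) : ℕ :=
  sSup {k : ℕ | ∃ p : Fin (k + 1) → Set V, StrictMono p ∧ ∀ i, IsFlat G (p i)}

/-- `M(n)`: the maximum of `c-rk G + c-rk Gᶜ` over all graphs `G` on `n` vertices. -/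
noncomputable def M (n : ℕ) : ℕ :=
  sSup {s : ℕ | ∃ G : SimpleGraph (Fin n), crk G + crk Gᶜ = s}

section
variable {V : Type} {G : SimpleGraph V}

lemma tri_of_chain [Nonempty V] {k : ℕ} (p : Fin (k + 1) → Set V) (hp : StrictMono p)
    (hf : ∀ i, IsFlat G (p i)) : Tri G k := by
  classical
  have key : ∀ i : Fin k, ∃ x w : V, x ∈ p i.succ ∧ ¬ G.Adj x w ∧
      ∀ y ∈ p i.castSucc, G.Adj y w := by
    intro i
    have hlt : p i.castSucc < p i.succ := hp (Fin.castSucc_lt_succ)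
    obtain ⟨x, hx, hx'⟩ := Set.exists_of_ssubset hlt
    obtain ⟨W, hW⟩ := hf i.castSucc
    rw [hW] at hx'
    simp only [St, Set.mem_iInter, SimpleGraph.mem_neighborSet, not_forall] at hx'
    obtain ⟨w, hw, hn⟩ := hx'
    refine ⟨x, w, hx, fun h => hn h.symm, fun y hy => ?_⟩
    rw [hW] at hy
    simp only [St, Set.mem_iInter, SimpleGraph.mem_neighborSet] at hy
    exact (hy w hw).symm
  choose x w hx hn hadj using key
  refine ⟨fun i => if h : i < k then x ⟨i, h⟩ else Classical.arbitrary V,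
    fun i => if h : i < k then w ⟨i, h⟩ else Classical.arbitrary V, ?_, ?_⟩
  · intro i hi
    simp only [hi, dif_pos]
    exact hn _
  · intro i j hij hj
    have hi : i < k := by omega
    simp only [hi, hj, dif_pos]
    apply hadj
    refine hp.monotone ?_ (hx ⟨i, hi⟩)
    rw [Fin.le_def]
    simp only [Fin.val_succ, Fin.val_castSucc]
    omega

lemma chain_of_tri {k : ℕ} (h : Tri G k) :
    ∃ p : Fin (k + 1) → Set V, StrictMono p ∧ ∀ i, IsFlat G (p i) := by
  obtain ⟨a, b, h1, h2⟩ := h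
  refine ⟨fun t => St G {w | ∃ j, t.val ≤ j ∧ j < k ∧ w = b j}, ?_, fun t => ⟨_, rfl⟩⟩
  intro s t hst
  have hs : s.val < k := by have := t.isLt; have : s.val < t.val := hst; omega
  have hst' : s.val < t.val := hst
  refine lt_of_le_not_ge ?_ ?_
  · intro y hy
    simp only [St, Set.mem_iInter, SimpleGraph.mem_neighborSet, Set.mem_ofPred_eq] at hy ⊢
    rintro w ⟨j, hj, hjk, rfl⟩
    exact hy _ ⟨j, by omega, hjk, rfl⟩
  · intro hle
    have hmem : a s.val ∈ St G {w | ∃ j, t.val ≤ j ∧ j < k ∧ w = b j} := by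
      simp only [St, Set.mem_iInter, SimpleGraph.mem_neighborSet, Set.mem_ofPred_eq]
      rintro w ⟨j, hj, hjk, rfl⟩
      exact (h2 _ j (by omega) hjk).symm
    have := hle hmem
    simp only [St, Set.mem_iInter, SimpleGraph.mem_neighborSet, Set.mem_ofPred_eq] at this
    exact h1 _ hs (this _ ⟨s.val, le_rfl, hs, rfl⟩).symm

lemma bdd [Fintype V] [Nonempty V] (G : SimpleGraph V) :
    BddAbove {k : ℕ | ∃ p : Fin (k + 1) → Set V, StrictMono p ∧ ∀ i, IsFlat G (p i)} :=
  ⟨Fintype.card V, fun _ ⟨p, hp, hf⟩ => tri_le (tri_of_chain p hp hf)⟩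

lemma tri_zero [Nonempty V] (G : SimpleGraph V) : Tri G 0 :=
  ⟨fun _ => Classical.arbitrary V, fun _ => Classical.arbitrary V,
    fun _ h => absurd h (Nat.not_lt_zero _), fun _ _ _ h => absurd h (Nat.not_lt_zero _)⟩

lemma tri_crk [Fintype V] [Nonempty V] (G : SimpleGraph V) : Tri G (crk G) := by
  obtain ⟨p, hp, hf⟩ := Nat.sSup_mem (s := {k : ℕ | ∃ p : Fin (k + 1) → Set V,
    StrictMono p ∧ ∀ i, IsFlat G (p i)}) ⟨0, chain_of_tri (tri_zero G)⟩ (bdd G)
  exact tri_of_chain p hp hf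

lemma le_crk [Fintype V] [Nonempty V] {k : ℕ} (h : Tri G k) : k ≤ crk G :=
  le_csSup (bdd G) (chain_of_tri h)

lemma sum_le [Fintype V] [Nonempty V] (G : SimpleGraph V) :
    crk G + crk Gᶜ ≤ Fintype.card V + 2 :=
  tri_add_le (tri_crk G) (tri_crk Gᶜ)

lemma sum_le_of_crk_le_two [Fintype V] [Nonempty V] (G : SimpleGraph V) (h : crk G ≤ 2) :
    crk G + crk Gᶜ ≤ Fintype.card V + 1 := by
  have h1 := tri_le (tri_crk Gᶜ)
  by_contra hlt
  have e1 : crk G = 2 := by omega
  have e2 : crk Gᶜ = Fintype.card V := by omega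
  obtain ⟨x, y, hxy⟩ := tri_two (e1 ▸ tri_crk G)
  have := tri_full (e2 ▸ tri_crk Gᶜ) hxy.ne
  exact ((G.compl_adj _ _).1 this).2 hxy

lemma sum_le_of_few_edges [Fintype V] [Nonempty V] (G : SimpleGraph V)
    (h : G.edgeSet.ncard < 3) : crk G + crk Gᶜ ≤ Fintype.card V + 1 := by
  apply sum_le_of_crk_le_two
  by_contra hlt
  have := tri_three (tri_mono (tri_crk G) (by omega : 3 ≤ crk G))
  omega

lemma sum_le_small [Fintype V] [Nonempty V] (G : SimpleGraph V) (h : Fintype.card V ≤ 3) :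
    crk G + crk Gᶜ ≤ Fintype.card V + 1 := by
  by_cases h2 : crk G ≤ 2
  · exact sum_le_of_crk_le_two G h2
  · have h1 := tri_le (tri_crk G)
    have e : crk G = Fintype.card V := by omega
    have h3 : crk Gᶜ ≤ 1 := by
      by_contra hlt
      obtain ⟨x, y, hxy⟩ := tri_two (tri_mono (tri_crk Gᶜ) (by omega : 2 ≤ crk Gᶜ))
      exact ((G.compl_adj _ _).1 hxy).2 (tri_full (e ▸ tri_crk G) hxy.ne)
    omega

end

lemma bddM (n : ℕ) [NeZero n] :
    BddAbove {s : ℕ | ∃ G : SimpleGraph (Fin n), crk G + crk Gᶜ = s} :=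
  ⟨n + 2, fun _ ⟨G, hG⟩ => hG ▸ (by simpa using sum_le G)⟩

lemma M_eq {n : ℕ} [NeZero n] {m : ℕ} (G : SimpleGraph (Fin n)) (h1 : crk G + crk Gᶜ = m)
    (h2 : ∀ H : SimpleGraph (Fin n), crk H + crk Hᶜ ≤ m) : M n = m := by
  apply le_antisymm
  · exact csSup_le ⟨m, G, h1⟩ (fun _ ⟨H, hH⟩ => hH ▸ h2 H)
  · exact le_csSup (bddM n) ⟨G, h1⟩

lemma bot_sum (n : ℕ) [NeZero n] :
    n + 1 ≤ crk (⊥ : SimpleGraph (Fin n)) + crk (⊥ : SimpleGraph (Fin n))ᶜ := by
  have h1 : Tri (⊥ : SimpleGraph (Fin n)) 1 :=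
    ⟨fun _ => 0, fun _ => 0, fun _ _ h => h, fun _ _ _ _ => by omega⟩
  have h2 : Tri (⊥ : SimpleGraph (Fin n))ᶜ n := by
    refine ⟨fun i => Fin.ofNat n i, fun i => Fin.ofNat n i, fun _ _ h => h.ne rfl, ?_⟩
    intro i j hij hj
    simp only [SimpleGraph.compl_adj, SimpleGraph.bot_adj, not_false_eq_true, and_true, ne_eq,
      Fin.ext_iff, Fin.ofNat, Nat.mod_eq_of_lt hj, Nat.mod_eq_of_lt (hij.trans hj)]
    omega
  have := le_crk h1
  have := le_crk h2
  omega

/-- The path `0 - 1 - 2 - 3` together with isolated vertices. -/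
def path4 (n : ℕ) : SimpleGraph (Fin n) where
  Adj x y := (x.val + 1 = y.val ∧ y.val ≤ 3) ∨ (y.val + 1 = x.val ∧ x.val ≤ 3)
  symm := ⟨fun _ _ h => h.symm⟩
  loopless := ⟨fun x h => by omega⟩

lemma path4_sum (n : ℕ) [NeZero n] (hn : 4 ≤ n) :
    n + 2 ≤ crk (path4 n) + crk (path4 n)ᶜ := by
  have h1 : Tri (path4 n) 3 := by
    refine ⟨fun i => Fin.ofNat n (if i = 0 then 1 else if i = 1 then 3 else 2),
      fun i => Fin.ofNat n (if i = 0 then 1 else if i = 1 then 0 else 2), ?_, ?_⟩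
    · intro i hi
      have e1 : 1 % n = 1 := Nat.mod_eq_of_lt (by omega)
      have e2 : 2 % n = 2 := Nat.mod_eq_of_lt (by omega)
      have e3 : 3 % n = 3 := Nat.mod_eq_of_lt (by omega)
      interval_cases i <;> simp [path4, Fin.ofNat, e1, e2, e3]
    · intro i j hij hj
      have e1 : 1 % n = 1 := Nat.mod_eq_of_lt (by omega)
      have e2 : 2 % n = 2 := Nat.mod_eq_of_lt (by omega)
      have e3 : 3 % n = 3 := Nat.mod_eq_of_lt (by omega)
      interval_cases j <;> interval_cases i <;> simp [path4, Fin.ofNat, e1, e2, e3]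
  have h2 : Tri (path4 n)ᶜ (n - 1) := by
    refine ⟨fun i => Fin.ofNat n (if i < 2 then i else i + 1),
      fun i => Fin.ofNat n (if i = 0 then 0 else i + 1), ?_, ?_⟩
    · intro i hi
      have e1 : (if i < 2 then i else i + 1) % n = if i < 2 then i else i + 1 :=
        Nat.mod_eq_of_lt (by split_ifs <;> omega)
      have e2 : (if i = 0 then 0 else i + 1) % n = if i = 0 then 0 else i + 1 :=
        Nat.mod_eq_of_lt (by split_ifs <;> omega)
      simp only [SimpleGraph.compl_adj, path4, ne_eq, Fin.ext_iff, Fin.ofNat, e1, e2]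
      split_ifs <;> omega
    · intro i j hij hj
      have e1 : (if i < 2 then i else i + 1) % n = if i < 2 then i else i + 1 :=
        Nat.mod_eq_of_lt (by split_ifs <;> omega)
      have e2 : (if j = 0 then 0 else j + 1) % n = if j = 0 then 0 else j + 1 :=
        Nat.mod_eq_of_lt (by split_ifs <;> omega)
      simp only [SimpleGraph.compl_adj, path4, ne_eq, Fin.ext_iff, Fin.ofNat, e1, e2]
      split_ifs <;> omega
  have := le_crk h1
  have := le_crk h2
  omega

lemma path4_edges (n : ℕ) (hn : 4 ≤ n) : (path4 n).edgeSet.ncard ≤ 3 := by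
  have hsub : (path4 n).edgeSet ⊆ {s(⟨0, by omega⟩, ⟨1, by omega⟩), s(⟨1, by omega⟩, ⟨2, by omega⟩),
      s(⟨2, by omega⟩, ⟨3, by omega⟩)} := by
    intro e he
    induction e using Sym2.ind with
    | _ x y =>
      simp only [SimpleGraph.mem_edgeSet, path4] at he
      simp only [Set.mem_insert_iff, Set.mem_singleton_iff, Sym2.eq_iff, Fin.ext_iff]
      omega
  refine (Set.ncard_le_ncard hsub (Set.toFinite _)).trans ?_
  refine (Set.ncard_insert_le _ _).trans ?_
  have := Set.ncard_insert_le (s((⟨1, by omega⟩ : Fin n), (⟨2, by omega⟩ : Fin n)))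
    {s((⟨2, by omega⟩ : Fin n), (⟨3, by omega⟩ : Fin n))}
  rw [Set.ncard_singleton] at this
  omega

/-- For every `n ≥ 1`, the smallest number of edges of a graph `G` on `n` vertices with
`c-rk G + c-rk Gᶜ = M(n)` is `0` for `n ≤ 3` and `3` for `n ≥ 4`. -/
theorem result (n : ℕ) (hn : 1 ≤ n) :
    IsLeast {e : ℕ | ∃ G : SimpleGraph (Fin n), crk G + crk Gᶜ = M n ∧ G.edgeSet.ncard = e}
      (if n ≤ 3 then 0 else 3) := by
  have : NeZero n := ⟨by omega⟩
  split_ifs with h
  · refine ⟨⟨⊥, ?_, by simp⟩, fun _ _ => Nat.zero_le _⟩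
    have hub : ∀ H : SimpleGraph (Fin n), crk H + crk Hᶜ ≤ n + 1 := fun H => by
      simpa using sum_le_small H (by simpa using h)
    have e := le_antisymm (hub ⊥) (bot_sum n)
    rw [M_eq ⊥ e hub, e]
  · have hn4 : 4 ≤ n := by omega
    have hub : ∀ H : SimpleGraph (Fin n), crk H + crk Hᶜ ≤ n + 2 := fun H => by
      simpa using sum_le H
    have e := le_antisymm (hub (path4 n)) (path4_sum n hn4)
    have hM : M n = n + 2 := M_eq _ e hub
    have hlb : ∀ H : SimpleGraph (Fin n), crk H + crk Hᶜ = M n → 3 ≤ H.edgeSet.ncard := by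
      intro H hH
      by_contra hlt
      have := sum_le_of_few_edges H (by omega)
      simp only [Fintype.card_fin] at this
      omega
    refine ⟨⟨path4 n, by rw [hM, e], ?_⟩, ?_⟩
    · exact le_antisymm (path4_edges n hn4) (hlb _ (by rw [hM, e]))
    · rintro _ ⟨H, hH, rfl⟩
      exact hlb H hH

end Pool.Agent.Results.MP_47eac2_co.MinEdgesMaxSum
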